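import Mathlib
import Pool.Agent.W544.PG.Defs8
import Pool.Agent.W557.PG.Ahl
import Pool.Agent.W918.PG.Ah2

/-!
# TP-HCK: forms over a subfield, any quadratic form
-/

set_option autoImplicit false

open Matrix Finset Module

namespace Pool.Agent.W21.TP

open Pool.Agent.W544.PG Pool.Agent.W557.PG

noncomputable section

section fub
variable {m : ℕ} {R X : Type} [CommRing R] [Fintype X]

/-- functions on the orbits of an involution -/
def orbEq (X : Type) (σ : Fin m → Fin m) (hσ : ∀ j, σ (σ j) = j) :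
    (Fin m → X) ≃ ({j // σ j = j} → X) × ({j // j < σ j} → X × X) where
  toFun K := (fun j => K j.1, fun j => (K j.1, K (σ j.1)))
  invFun fg := fun j => if h : σ j = j then fg.1 ⟨j, h⟩ else
    if h2 : j < σ j then (fg.2 ⟨j, h2⟩).1 else
      (fg.2 ⟨σ j, by rw [hσ]; exact lt_of_le_of_ne (not_lt.mp h2) h⟩).2
  left_inv K := by
    funext j
    dsimp only
    split_ifs with h h2
    · rfl
    · rfl
    · rw [hσ]
  right_inv fg := by
    obtain ⟨f, g⟩ := fg
    apply Prod.ext
    · funext j
      simp only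
      rw [dif_pos j.2]
    · funext j
      apply Prod.ext
      · simp only
        rw [dif_neg (ne_of_gt j.2), dif_pos j.2]
      · simp only
        have h1 : ¬ σ (σ j.1) = σ j.1 := by rw [hσ]; exact ne_of_lt j.2
        have h2 : ¬ σ j.1 < σ (σ j.1) := by rw [hσ]; exact not_lt.mpr j.2.le
        rw [dif_neg h1, dif_neg h2]
        congr 2
        exact Subtype.ext (hσ j.1)

theorem fub (σ : Fin m → Fin m) (hσ : ∀ j, σ (σ j) = j) (F : Fin m → X → R)
    (G : Fin m → X → X → R) :
    ∑ K : Fin m → X, (∏ j with σ j = j, F j (K j)) * ∏ j with j < σ j, G j (K j) (K (σ j)) =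
      (∏ j with σ j = j, ∑ x, F j x) * ∏ j with j < σ j, ∑ x, ∑ y, G j x y := by
  classical
  have hA : ∀ f : Fin m → R, ∏ j with σ j = j, f j = ∏ j : {j // σ j = j}, f j.1 := fun f =>
    Finset.prod_subtype _ (by simp) f
  have hB : ∀ f : Fin m → R, ∏ j with j < σ j, f j = ∏ j : {j // j < σ j}, f j.1 := fun f =>
    Finset.prod_subtype _ (by simp) f
  simp only [hA, hB]
  have h1 : ∀ j : {j // j < σ j}, ∑ x, ∑ y, G j.1 x y = ∑ p : X × X, G j.1 p.1 p.2 := fun j =>
    (Fintype.sum_prod_type (f := fun p : X × X => G j.1 p.1 p.2)).symm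
  simp only [h1]
  rw [Finset.prod_univ_sum, Finset.prod_univ_sum]
  simp only [Fintype.piFinset_univ]
  rw [Finset.sum_mul_sum, ← Fintype.sum_prod_type' (f := fun (f : {j // σ j = j} → X) (g : {j // j < σ j} → X × X) =>
    (∏ j, F j.1 (f j)) * ∏ j, G j.1 (g j).1 (g j).2)]
  exact Fintype.sum_equiv (orbEq X σ hσ) _ _ fun K => rfl

theorem prod_split (σ : Fin m → Fin m) (hσ : ∀ j, σ (σ j) = j) (f : Fin m → R) :
    ∏ j, f j = (∏ j with σ j = j, f j) * ∏ j with j < σ j, f j * f (σ j) := by
  classical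
  have h1 : ∏ j, f j = (∏ j with σ j = j, f j) * ∏ j with ¬ σ j = j, f j :=
    (Finset.prod_filter_mul_prod_filter_not univ (fun j => σ j = j) f).symm
  have h2 : ∏ j with ¬ σ j = j, f j =
      (∏ j with j < σ j, f j) * ∏ j with σ j < j, f j := by
    rw [← Finset.prod_filter_mul_prod_filter_not (univ.filter fun j => ¬ σ j = j)
      (fun j => j < σ j) f, Finset.filter_filter, Finset.filter_filter]
    congr 1
    · apply Finset.prod_congr _ fun _ _ => rfl
      ext j
      simp only [mem_filter, mem_univ, true_and]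
      exact ⟨fun h => h.2, fun h => ⟨ne_of_gt h, h⟩⟩
    · apply Finset.prod_congr _ fun _ _ => rfl
      ext j
      simp only [mem_filter, mem_univ, true_and]
      exact ⟨fun h => lt_of_le_of_ne (not_lt.mp h.2) h.1, fun h => ⟨ne_of_lt h, not_lt.mpr h.le⟩⟩
  have h3 : ∏ j with σ j < j, f j = ∏ j with j < σ j, f (σ j) := by
    refine Finset.prod_nbij' σ σ ?_ ?_ ?_ ?_ ?_
    · intro j hj
      simp only [mem_filter, mem_univ, true_and] at hj ⊢
      rw [hσ]
      exact hj
    · intro j hj
      simp only [mem_filter, mem_univ, true_and] at hj ⊢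
      rw [hσ]
      exact hj
    · intro j _
      exact hσ j
    · intro j _
      exact hσ j
    · intro j _
      rw [hσ]
  rw [h1, h2, h3, Finset.prod_mul_distrib]

end fub

variable {n r s m : ℕ}

/-- the generators -/
def gen {K : Type} [Field K] (Q : Matrix (Fin n) (Fin n) K) (c : Fin n → Fin r)
    (d : Fin s → Fin r) (a : Fin m → Fin r) (σ : Fin m → Fin m) (ν : Fin m → Fin s → K)
    (J : Fin m → Fin s ⊕ Fin n) : K :=
  (∏ j with σ j = j, Sum.elim (ν j) (fun _ => 0) (J j)) *
      ∏ j with j < σ j,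
        if Sum.elim d c (J j) = a j then Matrix.fromBlocks 0 0 0 Q (J j) (J (σ j)) else 0

theorem block_ne {c : Fin n → Fin r} (d : Fin s → Fin r) {P : Matrix (Fin n) (Fin n) ℂ}
    (hP : BD c P) (x y : Fin s ⊕ Fin n)
    (h : fromBlocks (1 : Matrix (Fin s) (Fin s) ℂ) 0 0 P x y ≠ 0) :
    Sum.elim d c x = Sum.elim d c y ∧ ∀ i, (∃ b, x = Sum.inr b ∧ c b = i) ↔
      ∃ b, y = Sum.inr b ∧ c b = i := by
  rcases x with x | x <;> rcases y with y | y
  · rw [Matrix.fromBlocks_apply₁₁, Matrix.one_apply] at h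
    have hxy : x = y := by
      by_contra hxy
      rw [if_neg hxy] at h
      exact h rfl
    rw [hxy]
    exact ⟨rfl, fun i => Iff.rfl⟩
  · rw [Matrix.fromBlocks_apply₁₂] at h
    exact absurd rfl h
  · rw [Matrix.fromBlocks_apply₂₁] at h
    exact absurd rfl h
  · rw [Matrix.fromBlocks_apply₂₂] at h
    have hxy : c x = c y := by
      by_contra hxy
      exact h (hP x y hxy)
    refine ⟨hxy, fun i => ⟨?_, ?_⟩⟩
    · rintro ⟨b, hb, hi⟩
      refine ⟨y, rfl, ?_⟩
      rw [← hxy, ← hi, Sum.inr.inj hb]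
    · rintro ⟨b, hb, hi⟩
      refine ⟨x, rfl, ?_⟩
      rw [hxy, ← hi, Sum.inr.inj hb]

theorem pull_gen {c : Fin n → Fin r} (d : Fin s → Fin r) (a : Fin m → Fin r)
    {P : Matrix (Fin n) (Fin n) ℂ} (hP : BD c P) (σ : Fin m → Fin m) (hσ : ∀ j, σ (σ j) = j)
    (ν : Fin m → Fin s → ℂ) :
    pull (fromBlocks 1 0 0 P) (gen (1 : Matrix (Fin n) (Fin n) ℂ) c d a σ ν) =
      gen (Pᵀ * P) c d a σ ν := by
  funext J
  set V : Matrix (Fin s ⊕ Fin n) (Fin s ⊕ Fin n) ℂ := fromBlocks 1 0 0 P with hV
  unfold pull gen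
  have h1 : ∀ K : Fin m → Fin s ⊕ Fin n, (∏ j, V (K j) (J j)) *
      ((∏ j with σ j = j, Sum.elim (ν j) (fun _ => 0) (K j)) * ∏ j with j < σ j,
        if Sum.elim d c (K j) = a j then
          Matrix.fromBlocks 0 0 0 (1 : Matrix (Fin n) (Fin n) ℂ) (K j) (K (σ j)) else 0) =
      (∏ j with σ j = j, (fun (j : Fin m) (x : Fin s ⊕ Fin n) =>
        V x (J j) * Sum.elim (ν j) (fun _ => 0) x) j (K j)) *
      ∏ j with j < σ j, (fun (j : Fin m) (x y : Fin s ⊕ Fin n) =>
        V x (J j) * V y (J (σ j)) * if Sum.elim d c x = a j then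
          Matrix.fromBlocks 0 0 0 (1 : Matrix (Fin n) (Fin n) ℂ) x y else 0) j (K j) (K (σ j)) := by
    intro K
    rw [prod_split σ hσ (fun j => V (K j) (J j))]
    simp only [Finset.prod_mul_distrib]
    ring
  refine (Finset.sum_congr rfl fun K _ => h1 K).trans ((fub σ hσ
    (fun (j : Fin m) (x : Fin s ⊕ Fin n) => V x (J j) * Sum.elim (ν j) (fun _ => 0) x)
    (fun (j : Fin m) (x y : Fin s ⊕ Fin n) =>
        V x (J j) * V y (J (σ j)) * if Sum.elim d c x = a j then
          Matrix.fromBlocks 0 0 0 (1 : Matrix (Fin n) (Fin n) ℂ) x y else 0)).trans ?_)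
  congr 1
  · refine Finset.prod_congr rfl fun j _ => ?_
    rw [Fintype.sum_sum_type]
    simp only [Sum.elim_inl, Sum.elim_inr, mul_zero, Finset.sum_const_zero, add_zero]
    rcases J j with b | e
    · simp [hV, Matrix.one_apply]
    · simp [hV]
  · refine Finset.prod_congr rfl fun j _ => ?_
    have h2 : ∀ x y : Fin s ⊕ Fin n, V x (J j) * V y (J (σ j)) * (if Sum.elim d c x = a j then
          Matrix.fromBlocks 0 0 0 (1 : Matrix (Fin n) (Fin n) ℂ) x y else 0) =
        if Sum.elim d c (J j) = a j then V x (J j) * V y (J (σ j)) *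
          Matrix.fromBlocks 0 0 0 (1 : Matrix (Fin n) (Fin n) ℂ) x y else 0 := by
      intro x y
      by_cases hx : V x (J j) = 0
      · rw [hx]
        simp
      · rw [(block_ne d hP x (J j) hx).1]
        by_cases h : Sum.elim d c (J j) = a j
        · rw [if_pos h, if_pos h]
        · rw [if_neg h, if_neg h, mul_zero]
    simp only [h2]
    by_cases h : Sum.elim d c (J j) = a j
    · simp only [if_pos h]
      have h3 : Matrix.fromBlocks 0 0 0 (Pᵀ * P) =
          Vᵀ * Matrix.fromBlocks 0 0 0 (1 : Matrix (Fin n) (Fin n) ℂ) * V := by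
        rw [hV, Matrix.fromBlocks_transpose, Matrix.fromBlocks_multiply,
          Matrix.fromBlocks_multiply]
        simp
      have h3' : (Matrix.fromBlocks 0 0 0 (Pᵀ * P) : Matrix (Fin s ⊕ Fin n) (Fin s ⊕ Fin n) ℂ)
          (J j) (J (σ j)) = (Vᵀ * Matrix.fromBlocks 0 0 0 (1 : Matrix (Fin n) (Fin n) ℂ) * V :
            Matrix (Fin s ⊕ Fin n) (Fin s ⊕ Fin n) ℂ) (J j) (J (σ j)) :=
        congrFun (congrFun h3 _) _
      rw [h3', Matrix.mul_apply]
      simp only [Matrix.mul_apply, Matrix.transpose_apply, Finset.sum_mul]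
      rw [Finset.sum_comm]
      refine Finset.sum_congr rfl fun x _ => Finset.sum_congr rfl fun y _ => ?_
      ring
    · simp only [if_neg h, Finset.sum_const_zero]

theorem gen_mem {K : Type} [Field K] (ι : K →+* ℂ) (Q : Matrix (Fin n) (Fin n) K)
    (c : Fin n → Fin r) (d : Fin s → Fin r) (a : Fin m → Fin r) (σ : Fin m → Fin m)
    (hσ : ∀ j, σ (σ j) = j) (haσ : ∀ j, a (σ j) = a j) (ν : Fin m → Fin s → ℂ)
    (hν : ∀ j b, ν j b ≠ 0 → d b = a j) :
    gen (Q.map ι) c d a σ ν ∈ Submodule.span ℂ {u : (Fin m → Fin s ⊕ Fin n) → ℂ |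
      ∃ w ∈ {t : (Fin m → Fin s ⊕ Fin n) → K | ∃ (σ : Fin m → Fin m) (ν : Fin m → Fin s → K),
        (∀ j, σ (σ j) = j) ∧ (∀ j, a (σ j) = a j) ∧ (∀ j b, ν j b ≠ 0 → d b = a j) ∧
        ∀ J, t J = (∏ j with σ j = j, Sum.elim (ν j) (fun _ => 0) (J j)) *
          ∏ j with j < σ j,
            if Sum.elim d c (J j) = a j then Matrix.fromBlocks 0 0 0 Q (J j) (J (σ j)) else 0},
        u = fun x => ι (w x)} := by
  classical
  let coef : Fin m → Option (Fin s) → ℂ := fun j y =>
    match y with
    | some b => if σ j = j then ν j b else 0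
    | none => if σ j = j then 0 else 1
  let val : Fin m → Option (Fin s) → Fin s ⊕ Fin n → ℂ := fun _ y x =>
    match y with
    | some b => if x = Sum.inl b then 1 else 0
    | none => 1
  let νη : (Fin m → Option (Fin s)) → Fin m → Fin s → K := fun η j b =>
    if η j = some b then 1 else 0
  have hsum : ∀ (j : Fin m) (x : Fin s ⊕ Fin n), ∑ y, coef j y * val j y x =
      if σ j = j then Sum.elim (ν j) (fun _ => 0) x else 1 := by
    intro j x
    rw [Fintype.sum_option]
    by_cases h : σ j = j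
    · simp only [coef, val, h, if_true]
      rcases x with x | x
      · simp
      · simp
    · simp [coef, val, h]
  have hexp : gen (Q.map ι) c d a σ ν = ∑ η : Fin m → Option (Fin s),
      (∏ j, coef j (η j)) • fun J => (∏ j, val j (η j) (J j)) * ∏ j with j < σ j,
        if Sum.elim d c (J j) = a j then
          Matrix.fromBlocks 0 0 0 (Q.map ι) (J j) (J (σ j)) else 0 := by
    funext J
    rw [Finset.sum_apply]
    simp only [Pi.smul_apply, smul_eq_mul]
    unfold gen
    have h1 : ∏ j with σ j = j, Sum.elim (ν j) (fun _ => 0) (J j) =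
        ∏ j, ∑ y, coef j y * val j y (J j) := by
      simp only [hsum]
      rw [Finset.prod_filter]
    rw [h1, Finset.prod_univ_sum, Fintype.piFinset_univ, Finset.sum_mul]
    refine Finset.sum_congr rfl fun η _ => ?_
    rw [Finset.prod_mul_distrib]
    ring
  rw [hexp]
  refine Submodule.sum_mem _ fun η _ => ?_
  by_cases h0 : ∏ j, coef j (η j) = 0
  · rw [h0, zero_smul]
    exact Submodule.zero_mem _
  · refine Submodule.smul_mem _ _ (Submodule.subset_span ?_)
    have hne : ∀ j, coef j (η j) ≠ 0 := fun j hj => h0 (Finset.prod_eq_zero (Finset.mem_univ j) hj)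
    have hfix : ∀ j, σ j = j → ∃ b, η j = some b ∧ ν j b ≠ 0 := by
      intro j hj
      have := hne j
      rcases hη : η j with _ | b
      · rw [hη] at this
        simp [coef, hj] at this
      · rw [hη] at this
        simp only [coef, hj, if_true] at this
        exact ⟨b, rfl, this⟩
    have hnfix : ∀ j, σ j ≠ j → η j = none := by
      intro j hj
      have := hne j
      rcases hη : η j with _ | b
      · rfl
      · rw [hη] at this
        simp [coef, hj] at this
    refine ⟨gen Q c d a σ (νη η), ⟨σ, νη η, hσ, haσ, ?_, fun J => rfl⟩, ?_⟩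
    · intro j b hb
      have hηb : η j = some b := by
        by_contra h
        exact hb (if_neg h)
      by_cases hj : σ j = j
      · obtain ⟨b', hb', hν'⟩ := hfix j hj
        rw [hηb] at hb'
        obtain rfl := Option.some.inj hb'
        exact hν j b hν'
      · rw [hnfix j hj] at hηb
        exact absurd hηb (by simp)
    · funext J
      unfold gen
      rw [map_mul, map_prod, map_prod]
      congr 1
      · rw [Finset.prod_filter]
        refine Finset.prod_congr rfl fun j _ => ?_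
        by_cases hj : σ j = j
        · rw [if_pos hj]
          obtain ⟨b, hb, _⟩ := hfix j hj
          simp only [νη, val, hb]
          rcases J j with x | x
          · by_cases hx : x = b
            · subst hx
              simp
            · have : ¬ b = x := fun h => hx h.symm
              simp [hx, this]
          · simp
        · rw [if_neg hj, hnfix j hj]
      · refine Finset.prod_congr rfl fun j _ => ?_
        by_cases h : Sum.elim d c (J j) = a j
        · rw [if_pos h, if_pos h]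
          rcases J j with x | x <;> rcases J (σ j) with y | y <;> simp
        · rw [if_neg h, if_neg h, map_zero]

theorem hck (hmk : S_mk) (hcc : S_hcc) : S_hck := by
  intro K _ ι n r s m c d a Q u hQ hu hun t hk hsupp hcard
  have hud : u.det ≠ 0 := by
    intro h
    have := congrArg Matrix.det hun
    rw [Matrix.det_mul, h, mul_zero, Matrix.det_one] at this
    exact zero_ne_one this
  have huu : IsUnit u.det := isUnit_iff_ne_zero.2 hud
  have hu1 : u⁻¹ * u = 1 := Matrix.nonsing_inv_mul _ huu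
  have hu2 : u * u⁻¹ = 1 := Matrix.mul_nonsing_inv _ huu
  have hui : BD c u⁻¹ := Pool.Agent.W918.PG.bd_inv hu huu
  have huQ : uᵀ * Q.map ι = u⁻¹ := by
    calc uᵀ * Q.map ι = uᵀ * Q.map ι * (u * u⁻¹) := by rw [hu2, mul_one]
      _ = uᵀ * Q.map ι * u * u⁻¹ := by rw [← mul_assoc]
      _ = u⁻¹ := by rw [hun, one_mul]
  have hQe : Q.map ι = (u⁻¹)ᵀ * u⁻¹ := by
    calc Q.map ι = (u * u⁻¹)ᵀ * Q.map ι := by rw [hu2]; simp
      _ = (u⁻¹)ᵀ * (uᵀ * Q.map ι) := by rw [Matrix.transpose_mul, mul_assoc]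
      _ = (u⁻¹)ᵀ * u⁻¹ := by rw [huQ]
  have hQu : Q.map ι * u = (u⁻¹)ᵀ := by rw [hQe, mul_assoc, hu1, mul_one]
  set U : Matrix (Fin s ⊕ Fin n) (Fin s ⊕ Fin n) ℂ := fromBlocks 1 0 0 u with hU
  set V : Matrix (Fin s ⊕ Fin n) (Fin s ⊕ Fin n) ℂ := fromBlocks 1 0 0 u⁻¹ with hV
  have hUV : U * V = 1 := by
    rw [hU, hV, Matrix.fromBlocks_multiply]
    simp [hu2]
  set T : (Fin m → Fin s ⊕ Fin n) → ℂ := fun J => ι (t J) with hT
  -- the transported form
  have h1 : pull U T ∈ algK (1 : Matrix (Fin n) (Fin n) ℂ) c d a := by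
    have hsup : ∀ J, pull U T J ≠ 0 → ∃ K : Fin m → Fin s ⊕ Fin n, t K ≠ 0 ∧
        ∀ j, U (K j) (J j) ≠ 0 := by
      intro J hJ
      unfold pull at hJ
      obtain ⟨K, _, hK⟩ := Finset.exists_ne_zero_of_sum_ne_zero hJ
      refine ⟨K, ?_, ?_⟩
      · intro h0
        apply hK
        simp [hT, h0]
      · intro j h0
        apply hK
        rw [Finset.prod_eq_zero (Finset.mem_univ j) h0, zero_mul]
    refine hcc n r s m c d a (pull U T) ?_ ?_ ?_
    · intro Z hZ hbZ
      rw [act_pull U (fromBlocks 0 0 0 Z) (fromBlocks 0 0 0 (u * Z * u⁻¹)) (by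
        rw [hU, Matrix.fromBlocks_multiply, Matrix.fromBlocks_multiply]
        simp [mul_assoc, hu1]) T]
      rw [hk (u * Z * u⁻¹) ?_ ?_]
      · funext J
        simp [pull]
      · calc (u * Z * u⁻¹)ᵀ * Q.map ι + Q.map ι * (u * Z * u⁻¹)
            = (u⁻¹)ᵀ * Zᵀ * (uᵀ * Q.map ι) + (Q.map ι * u) * Z * u⁻¹ := by
              rw [Matrix.transpose_mul, Matrix.transpose_mul]
              simp only [mul_assoc]
          _ = 0 := by
              rw [huQ, hQu, hZ]
              simp
      · exact Pool.Agent.W918.PG.bd_mul (Pool.Agent.W918.PG.bd_mul hu hbZ) hui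
    · intro J hJ j
      obtain ⟨K, hK, hKJ⟩ := hsup J hJ
      rw [← (block_ne d hu (K j) (J j) (hKJ j)).1]
      exact hsupp K hK j
    · intro J hJ i
      obtain ⟨K, hK, hKJ⟩ := hsup J hJ
      have h2 : (univ.filter fun j => ∃ b, J j = Sum.inr b ∧ c b = i) =
          univ.filter fun j => ∃ b, K j = Sum.inr b ∧ c b = i := by
        ext j
        simp only [mem_filter, mem_univ, true_and]
        exact ((block_ne d hu (K j) (J j) (hKJ j)).2 i).symm
      rw [h2]
      exact hcard K hK i
  -- back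
  have h2 : T = pull V (pull U T) := by
    rw [← pull_mul, hUV, pull_one]
  apply hmk K ι (Fin m → Fin s ⊕ Fin n)
  change T ∈ _
  rw [h2]
  unfold algK at h1
  refine Submodule.span_induction (p := fun x _ => pull V x ∈ Submodule.span ℂ _) ?_ ?_ ?_ ?_ h1
  · rintro x ⟨σ, ν, hσ, haσ, hν, hx⟩
    have hx' : x = gen (1 : Matrix (Fin n) (Fin n) ℂ) c d a σ ν := funext hx
    rw [hx', hV, pull_gen d a hui σ hσ ν, ← hQe]
    exact gen_mem ι Q c d a σ hσ haσ ν hν
  · have : pull V (0 : (Fin m → Fin s ⊕ Fin n) → ℂ) = 0 := by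
      funext J
      simp [pull]
    rw [this]
    exact Submodule.zero_mem _
  · intro x y _ _ hx hy
    have : pull V (x + y) = pull V x + pull V y := by
      funext J
      simp [pull, mul_add, Finset.sum_add_distrib]
    rw [this]
    exact Submodule.add_mem _ hx hy
  · intro z x _ hx
    have : pull V (z • x) = z • pull V x := by
      funext J
      simp only [pull, Pi.smul_apply, smul_eq_mul, Finset.mul_sum]
      refine Finset.sum_congr rfl fun K _ => ?_
      ring
    rw [this]
    exact Submodule.smul_mem _ _ hx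

end

end Pool.Agent.W21.TP
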